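import Pool.Agent.W_448kr_h10.KrD

/-!
MP_448cb3_co, G2, case B, windows `j - 1` and `j`: [DL] with four sites, both ends single, the weights
`V8` of step 0 at `j = 8`.  Here `j = i + 1`.  After helper10 (KrB - KrD).
helper53.
-/

namespace Pool.Agent.GaussPoset.Win.Pn

set_option linter.unusedSectionVars false

open Finset W4 Wd
open Pool.Agent.GaussPoset.Win.SO (con PN on mem_PN vp F5 mem_F5 N1f N5f)

universe u

variable {P : Type u} [Fintype P] [PartialOrder P] [DecidableEq P] {r j i : ℕ}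
  {psi : P → P} {C : Finset P} {p w z : P} {lo hi : ℕ → ℕ} {e : ℕ → ℕ → P}

/-- the arithmetic of the value -/
lemma oe_arith {k f n z sk N a5 tw : ℤ} (hk : 0 ≤ k) (hf : 0 ≤ f) (hf1 : f ≤ 1)
    (hn : n ≤ 5 - f) (hz : 0 ≤ z) (hzk : z + k ≤ 2) (hs : sk ≤ 2 * z) (hN : 0 ≤ N)
    (h5 : 7 ≤ a5) :
    0 ≤ 2 * (-(1 + k - f) + ((1 + k - f) ^ 2 + 2 * N)) + (z * (a5 + 1) -
      4 * 1 * z * (k + n - 3) - 2 * 1 * sk - 2 * 2 * z * (-(1 + k - f)) - 4 * 1 * z * 0 +
        (2 * 1 - 2) * (z * (z - 1)) - (1 - 2 + 1) * tw) := by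
  have q1 : z = 0 ∨ z = 1 ∨ z = 2 := by omega
  have q2 : f = 0 ∨ f = 1 := by omega
  have q3 : k = 0 ∨ k = 1 ∨ k = 2 := by omega
  rcases q1 with rfl | rfl | rfl
  · rcases q2 with rfl | rfl <;> rcases q3 with rfl | rfl | rfl <;> ring_nf <;> linarith
  · rcases q2 with rfl | rfl <;> rcases q3 with rfl | rfl | rfl <;> ring_nf <;> linarith
  · rcases q2 with rfl | rfl <;> rcases q3 with rfl | rfl | rfl <;> ring_nf <;> linarith

section nj

variable (h : NJ P r j) (hij : i + 1 = j) (hi1 : 1 ≤ i)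
include h hij hi1

/-- THE WINDOW `j - 1` of a part with at most three sites, no flip, no twins, one more upper than
lower element over three sites, the weights `V8` -/
theorem oe_share {t : Tops P} (h3 : (st i (SS i t)).card ≤ 3) (hF : F5 i (SS i t) = ∅)
    (hT : Tws i (SS i t) = ∅)
    (hZ : ((ZU i (SS i t)).card : ℤ) - ((ZL i (SS i t)).card : ℤ) = 1) {a5 f2 f4 f3 f6 : ℤ}
    (h5 : 7 ≤ a5) :
    0 ≤ 2 * own1 ⟨-1, a5, 1, 2, 1, f2, f4, f3, f6⟩ i t +
      ∑ p ∈ (PD P i).filter (fun p => (topOf p : Tops P) = t),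
        shr ⟨-1, a5, 1, 2, 1, f2, f4, f3, f6⟩ i p := by
  classical
  have H := h.g.H
  have g : GoodTo P r (i + 1) := by rw [hij]; exact h.g
  obtain ⟨lo, hi, e, Cm⟩ := Cp.comp_exists g.H t.2 g.hr g.good
  have W := Cm.toWin
  have L : Laws3 lo hi (i + 1) := laws3 (SO_holds P r) g Cm
  have hcs := h.card_SS (i := i) (by omega) (C := (by rw [← hij]; exact Cm))
  have hle := W.lohi i (by omega)
  have hV : hi i ≤ lo i + 2 := by omega
  obtain ⟨v5, v6, v8, v10⟩ := kr_vals h hij hi1 h3 hF hT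
  have hN : (0 : ℤ) ≤ (N1f i (SS i t)).card := Nat.cast_nonneg _
  have hA : 0 ≤ A3 i t ^ 2 - A3 i t := by
    rcases le_or_gt (A3 i t) 0 with k | k
    · nlinarith
    · nlinarith
  unfold own1
  simp only
  rw [v5, v6, v8, v10]
  have ho : -1 * A3 i t + a5 * 0 + 1 * (A3 i t ^ 2 + 2 * ((N1f i (SS i t)).card : ℤ)) + 2 * 0 +
      1 * 0 = -A3 i t + (A3 i t ^ 2 + 2 * ((N1f i (SS i t)).card : ℤ)) := by ring
  rw [ho]
  rcases ((PD P i).filter (fun p => (topOf p : Tops P) = t)).eq_empty_or_nonempty with h0 | ⟨p, hp⟩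
  · rw [h0, sum_empty]
    linarith
  obtain ⟨hpD, hpt⟩ := mem_filter.1 hp
  -- only one pendant
  have hone : (PD P i).filter (fun p => (topOf p : Tops P) = t) = {p} := by
    rw [eq_singleton_iff_unique_mem]
    refine ⟨hp, fun q hq => ?_⟩
    obtain ⟨hqD, hqt⟩ := mem_filter.1 hq
    exact nj_hone h hij hi1 q hqD p hpD (by rw [hqt, hpt])
  obtain ⟨w5, w7⟩ := kr_net h hij hi1 h3 hF hT hpD hpt
  obtain ⟨f1, f2'⟩ := small_nn h hij hi1 Cm L hF hV hpD hpt
  have hk := kr_kc h hij hi1 hpD hpt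
  have hzk := Pf.nj_zc_kc h hij hi1 (mem_PD.1 hpD).1
  have a3 : A3 i t = ((ZU i (SS i t)).card : ℤ) - (ZL i (SS i t)).card +
      (FL i (SS i t)).card - (FU' i (SS i t)).card := nj_al3 h hij hi1 t hF
  have hFU := W.card_FU g t.2 (i := i) (by omega) (S := SS i t)
    (fun y hy => h.mem (i := i) (by omega) t (by omega))
  have hS : ∑ z ∈ zs i (topOf : P → Tops P) p, kc z ≤
      2 * zc i (topOf : P → Tops P) p := by
    have h1 : ∀ z ∈ zs i (topOf : P → Tops P) p, kc z ≤ 2 := by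
      intro z _
      have h2 : ks z ⊆ dc z := fun y hy => mem_dc.2 (mem_uc.1 (by rw [mem_ks.1 hy]; simp))
      have h3 := (card_le_card h2).trans (dc_card_le H z)
      unfold kc
      exact_mod_cast h3
    have h2 := Finset.sum_le_sum h1
    rw [sum_const, nsmul_eq_mul] at h2
    unfold zc
    linarith
  rw [hone, sum_singleton]
  unfold shr
  simp only
  rw [w5, w7]
  have hz0 : 0 ≤ zc i (topOf : P → Tops P) p := Nat.cast_nonneg _
  have hk0 : 0 ≤ kc p := Nat.cast_nonneg _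
  have hfu : ((FU' i (SS i t)).card : ℤ) = (Wd.fuw lo hi i : ℤ) := by exact_mod_cast hFU
  have f1' : (Wd.fuw lo hi i : ℤ) ≤ 1 := by exact_mod_cast f1
  have f0 : (0 : ℤ) ≤ (Wd.fuw lo hi i : ℤ) := Nat.cast_nonneg _
  rw [← hk, hfu, hZ] at a3
  rw [a3]
  exact oe_arith hk0 f0 f1' f2' hz0 hzk hS hN h5

end nj

end Pool.Agent.GaussPoset.Win.Pn

namespace Pool.Agent.GaussPoset.R3

set_option linter.unusedSectionVars false

open Finset Win St Wd Win.W4 EK
open Pool.Agent.GaussPoset.Win.Pn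
open Pool.Agent.GaussPoset.Win.Pf
open Pool.Agent.GaussPoset.Win.SO (N1f mem_N1f N5f F5 mem_F5)

universe u

variable {P : Type u} [Fintype P] [PartialOrder P] [DecidableEq P] {r j i : ℕ}
  {t : Tops P} {lo hi : ℕ → ℕ} {e : ℕ → ℕ → P} {x : ℕ → P} {c : ℕ → ℤ} {β : ℤ}

lemma sq_add_self (a : ℤ) : 0 ≤ a ^ 2 + a := by
  rcases lt_or_ge a 0 with h | h <;> nlinarith

section row

variable (h : NJ P r j) (hij : i + 1 = j) (hi1 : 1 ≤ i) (B : RowB P j t 3 x c β)
include h hij hi1 B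

/-- one more upper than lower element over three sites -/
lemma bal_one (c1 : c 1 = -1) (u0 : (uc (x 0)).card = 1) (u3 : (uc (x 3)).card = 1) :
    ((ZU i (SS i t)).card : ℤ) - ((ZL i (SS i t)).card : ℤ) = 1 := by
  classical
  have h1 := h.bal_test hij hi1 B (fun _ => True)
  simp only [filter_true] at h1
  obtain ⟨g1, -, -⟩ := h.inner hij hi1 B
  have a1 := g1 1 (by omega) (by omega)
  have a2 := g1 2 (by omega) (by omega)
  have h2 : Ed x 3 = {1} := by
    ext k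
    rw [mem_singleton]
    constructor
    · exact fun hk => Ed_one h hij hi1 B u0 u3 hk
    · rintro rfl
      exact mem_Ed.2 ⟨by omega, a1, a2⟩
  rw [h2, sum_singleton, c1] at h1
  linarith

/-- the pendants and the flips of the row -/
lemma no_flip_D (hβ : β = 0) (c0 : c 0 = 1) (c1 : c 1 = -1) (c2 : c 2 = 0)
    (C : Cp.Comp (i + 1) (t : P) lo hi e) (u0 : (uc (x 0)).card = 1) (u3 : (uc (x 3)).card = 1)
    (hD : pen (x 2) = ∅ ∨ (Oc i lo hi ∧ x 2 = e (i + 1) 2)) : F5 i (SS i t) = ∅ := by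
  classical
  have hc : ∀ k, 2 ≤ k → k < 3 → c k = 0 := fun k h1 h2 => by
    obtain rfl : k = 2 := by omega
    exact c2
  obtain ⟨K, psi, R⟩ := exists_red P j
  obtain ⟨w, v, Dg⟩ := NJ.dlg h (by omega) R B le_rfl hβ c0 c1 hc
  have p1 : pen (x 1) = ∅ := by
    obtain ⟨a, b, hab, ua, ub, d0, d1⟩ := Dg.twins
    rw [eq_empty_iff_forall_notMem]
    intro q hq
    obtain ⟨h1, h2⟩ := mem_pen.1 hq
    have h3 := mem_dc.2 h1
    rw [d1, mem_insert, mem_singleton] at h3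
    rcases h3 with rfl | rfl
    · rw [ua, card_pair Dg.n01] at h2
      omega
    · rw [ub, card_pair Dg.n01] at h2
      omega
  rcases hD with hD | ⟨hD, hx⟩
  · refine F5_none h hij hi1 B ?_
    rw [eq_empty_iff_forall_notMem]
    intro p hp
    obtain ⟨hp, ht⟩ := mem_filter.1 hp
    have h1 := pd_x2 h hij hi1 B u0 u3 p1 hp ht
    have : p ∈ pen (x 2) := mem_pen.2 ⟨mem_uc.1 (by rw [h1]; exact mem_singleton_self _),
      (mem_PD.1 hp).2.1⟩
    rw [hD] at this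
    exact absurd this (notMem_empty _)
  · exact F5_open h hij hi1 B C hD hx u0 u3 p1

/-- **the value `V8` of the row is nonnegative** -/
theorem open3_v8 (hβ : β = 0) (c0 : c 0 = 1) (c1 : c 1 = -1) (c2 : c 2 = 0)
    (C : Cp.Comp (i + 1) (t : P) lo hi e) (u0 : (uc (x 0)).card = 1) (u3 : (uc (x 3)).card = 1)
    (hU : UE j (cext (j + 1) (topOf : P → Tops P) t) x 2 = ∅)
    (hD : pen (x 2) = ∅ ∨ (Oc i lo hi ∧ x 2 = e (i + 1) 2)) {a5 : ℤ} (h5 : 7 ≤ a5) :
    0 ≤ 2 * own ⟨-1, a5, 1, 2, 1, 1, 1, 6, 2⟩ i j t +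
      ∑ p ∈ (PD P i).filter (fun p => (topOf p : Tops P) = t),
        shr ⟨-1, a5, 1, 2, 1, 1, 1, 6, 2⟩ i p := by
  classical
  have hc : ∀ k, 2 ≤ k → k < 3 → c k = 0 := fun k h1 h2 => by
    obtain rfl : k = 2 := by omega
    exact c2
  obtain ⟨K, psi, R⟩ := exists_red P j
  obtain ⟨w, v, Dg⟩ := NJ.dlg h (by omega) R B le_rfl hβ c0 c1 hc
  have hF := no_flip_D h hij hi1 B hβ c0 c1 c2 C u0 u3 hD
  have h3 := three h hij hi1 B u0 u3
  have hs := oe_share h hij hi1 (t := t) h3.le hF (tws_D h hij hi1 B c1 u0 u3)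
    (bal_one h hij hi1 B c1 u0 u3) (f2 := 1) (f4 := 1) (f3 := 6) (f6 := 2) h5
  have hsm : Small j (topOf : P → Tops P) t := by
    refine (B.small h.g.H h.split).resolve_right fun hp => ?_
    have := hp.1
    omega
  have e6 := NJ.F6_small h (by omega) R hsm
  have e3 := Dg.L_form3 rfl
  have e4 := Dg.w3_eq
  have e2 : NE j (cext (j + 1) (topOf : P → Tops P) t) x 2 =
      ((DE j (cext (j + 1) (topOf : P → Tops P) t) x 2).card : ℤ) := by
    unfold NE
    rw [hU, card_empty]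
    push_cast
    ring
  rw [u0, u3, e2] at e3
  rw [e2] at e4
  push_cast at e3
  have ho : own ⟨-1, a5, 1, 2, 1, 1, 1, 6, 2⟩ i j t =
      own1 ⟨-1, a5, 1, 2, 1, 1, 1, 6, 2⟩ i t + (Lv j (cext (j + 1) (topOf : P → Tops P) t) +
        6 * wv j (cext (j + 1) (topOf : P → Tops P) t) +
        2 * wv j (cext (j + 1) (topOf : P → Tops P) t) ^ 2) := by
    rw [own_eq]
    unfold own2
    simp only
    rw [e6]
    unfold F2 F3 F4 Lv wv I2.bb I2.VV
    ring
  rw [ho]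
  set S := ∑ p ∈ (PD P i).filter (fun p => (topOf p : Tops P) = t),
    shr ⟨-1, a5, 1, 2, 1, 1, 1, 6, 2⟩ i p
  have hT := card_le_card (T4_subset j (cext (j + 1) (topOf : P → Tops P) t))
  have hT' : ((T4 j (cext (j + 1) (topOf : P → Tops P) t)).card : ℤ) ≤
      (Z4 j (cext (j + 1) (topOf : P → Tops P) t)).card := by exact_mod_cast hT
  have g2 := Dg.deg2
  have g3 := Dg.deg3' rfl
  have b2 := Dg.W.dc_le (k := 2) (by omega)
  have b3 := Dg.W.dc_le (k := 3) (by omega)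
  have q2 : (pen (x 2)).card = 0 ∨ (pen (x 2)).card = 1 := by omega
  have q3 : (pen (x 3)).card = 0 ∨ (pen (x 3)).card = 1 := by omega
  have hsq := sq_add_self (NE j (cext (j + 1) (topOf : P → Tops P) t) x 0 + 1 - 1 -
    (pen (x 2)).card)
  rcases Dg.CH2_num with ⟨d, cc⟩ | ⟨d, cc⟩ | ⟨d, cc⟩ <;> rw [d] at e3 e4 <;>
    push_cast at e3 e4 hsq <;> rw [e4] <;>
    rcases q2 with q2 | q2 <;> rw [q2] at e3 hsq <;>
    rcases q3 with q3 | q3 <;> rw [q3] at e3 <;> push_cast at e3 hsq <;> rw [e3] <;> linarith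

end row

end Pool.Agent.GaussPoset.R3
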