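import Pool.Agent.W_448op_h53.OeA
import Pool.Agent.W_448win_h80.R3E
import Pool.Agent.W_448st0_h96.SzD

/-!
MP_448cb3_co, G2, step 0: the leaf `HOpen3E`: [DL] with four sites, both ends single.
helper53.
-/

namespace Pool.Agent.GaussPoset.EK

set_option linter.unusedSectionVars false

open Finset Win St Polynomial Wd Win.W4

universe u

variable {P : Type u} [Fintype P] [PartialOrder P] [DecidableEq P] {r i j : ℕ}
variable {x : ℕ → P} {c : ℕ → ℤ} {β : ℤ} {t : Tops P}

/-- the pendant of the third site -/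
lemma open_word {lo hi : ℕ → ℕ} {e : ℕ → ℕ → P} (h : NJ P r (i + 1)) (hi1 : 1 ≤ i)
    (C : Cp.Comp (i + 1) (t : P) lo hi e) (hlen : hi (i + 1) = lo (i + 1) + 3)
    (hor : ∀ k, k ≤ 3 → x k = e (i + 1) (lo (i + 1) + k)) {a : ℕ} (L : LateC (i + 1) a lo hi)
    (u3 : (uc (x 3)).card = 1) : pen (x 2) = ∅ ∨ (R3.Oc i lo hi ∧ x 2 = e (i + 1) 2) := by
  have h1 := r3_word (x := fun k => x (3 - k)) h rfl hi1 C hlen (fun k hk => by
    show x (3 - k) = _
    rw [hor (3 - k) (by omega)]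
    congr 1
    omega) L u3
  rcases h1 with h1 | h1
  · exact Or.inl h1
  · right
    refine ⟨h1, ?_⟩
    rw [hor 2 (by omega)]
    congr 1
    have := h1.l0
    omega

/-- THE LEAF `HOpen3E` -/
theorem hopen3E (P : Type u) [Fintype P] [PartialOrder P] [DecidableEq P] : HOpen3E P := by
  intro r i K psi t x c β lo hi e a h8 hC R B C S L hI u0 u3 hU hor
  have hn := hC.nj
  have hi1 : 1 ≤ i := by omega
  obtain ⟨hlen, -⟩ := B.orient hn (by omega) C
  have hD := open_word hn hi1 C hlen hor L u3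
  left
  exact R3.open3_v8 hn rfl hi1 B hI.1 hI.2.1 hI.2.2.1 (hI.2.2.2 2 le_rfl (by omega)) C u0 u3 hU hD
    (a5 := 7) le_rfl

end Pool.Agent.GaussPoset.EK
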