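import Pool.Agent.W_448op_h53.OeA

/-!
MP_448cb3_co, G2, case B, windows `j - 1` and `j`: [DL] with four sites, both ends single, the weights
`W_a` of step 0 at `j = 8` (helper16).
helper53.
-/

namespace Pool.Agent.GaussPoset.R3

set_option linter.unusedSectionVars false

open Finset Win St Wd Win.W4 EK
open Pool.Agent.GaussPoset.Win.Pn
open Pool.Agent.GaussPoset.Win.Pf
open Pool.Agent.GaussPoset.Win.SO (N1f mem_N1f N5f F5 mem_F5)

universe u

variable {P : Type u} [Fintype P] [PartialOrder P] [DecidableEq P] {r j i : ℕ}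
  {t : Tops P} {lo hi : ℕ → ℕ} {e : ℕ → ℕ → P} {x : ℕ → P} {c : ℕ → ℤ} {β : ℤ}

section row

variable (h : NJ P r j) (hij : i + 1 = j) (hi1 : 1 ≤ i) (B : RowB P j t 3 x c β)
include h hij hi1 B

/-- **the value `W_a` of the row is nonnegative** -/
theorem open3_wa (hβ : β = 0) (c0 : c 0 = 1) (c1 : c 1 = -1) (c2 : c 2 = 0)
    (C : Cp.Comp (i + 1) (t : P) lo hi e) (u0 : (uc (x 0)).card = 1) (u3 : (uc (x 3)).card = 1)
    (hU : UE j (cext (j + 1) (topOf : P → Tops P) t) x 2 = ∅)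
    (hD : pen (x 2) = ∅ ∨ (Oc i lo hi ∧ x 2 = e (i + 1) 2)) {a5 : ℤ} (h5 : 7 ≤ a5) :
    0 ≤ 2 * own ⟨-1, a5, 1, 2, 1, 1, 1, 7, 1⟩ i j t +
      ∑ p ∈ (PD P i).filter (fun p => (topOf p : Tops P) = t),
        shr ⟨-1, a5, 1, 2, 1, 1, 1, 7, 1⟩ i p := by
  classical
  have hc : ∀ k, 2 ≤ k → k < 3 → c k = 0 := fun k h1 h2 => by
    obtain rfl : k = 2 := by omega
    exact c2
  obtain ⟨K, psi, R⟩ := exists_red P j
  obtain ⟨w, v, Dg⟩ := NJ.dlg h (by omega) R B le_rfl hβ c0 c1 hc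
  have hF := no_flip_D h hij hi1 B hβ c0 c1 c2 C u0 u3 hD
  have h3 := three h hij hi1 B u0 u3
  have hs := oe_share h hij hi1 (t := t) h3.le hF (tws_D h hij hi1 B c1 u0 u3)
    (bal_one h hij hi1 B c1 u0 u3) (f2 := 1) (f4 := 1) (f3 := 7) (f6 := 1) h5
  have hsm : Small j (topOf : P → Tops P) t := by
    refine (B.small h.g.H h.split).resolve_right fun hp => ?_
    have := hp.1
    omega
  have e6 := NJ.F6_small h (by omega) R hsm
  have e3 := Dg.L_form3 rfl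
  have e4 := Dg.w3_eq
  have e2 : NE j (cext (j + 1) (topOf : P → Tops P) t) x 2 =
      ((DE j (cext (j + 1) (topOf : P → Tops P) t) x 2).card : ℤ) := by
    unfold NE
    rw [hU, card_empty]
    push_cast
    ring
  rw [u0, u3, e2] at e3
  rw [e2] at e4
  push_cast at e3
  have ho : own ⟨-1, a5, 1, 2, 1, 1, 1, 7, 1⟩ i j t =
      own1 ⟨-1, a5, 1, 2, 1, 1, 1, 7, 1⟩ i t + (Lv j (cext (j + 1) (topOf : P → Tops P) t) +
        7 * wv j (cext (j + 1) (topOf : P → Tops P) t) +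
        1 * wv j (cext (j + 1) (topOf : P → Tops P) t) ^ 2) := by
    rw [own_eq]
    unfold own2
    simp only
    rw [e6]
    unfold F2 F3 F4 Lv wv I2.bb I2.VV
    ring
  rw [ho]
  set S := ∑ p ∈ (PD P i).filter (fun p => (topOf p : Tops P) = t),
    shr ⟨-1, a5, 1, 2, 1, 1, 1, 7, 1⟩ i p
  have hT := card_le_card (T4_subset j (cext (j + 1) (topOf : P → Tops P) t))
  have hT' : ((T4 j (cext (j + 1) (topOf : P → Tops P) t)).card : ℤ) ≤
      (Z4 j (cext (j + 1) (topOf : P → Tops P) t)).card := by exact_mod_cast hT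
  have g2 := Dg.deg2
  have g3 := Dg.deg3' rfl
  have b2 := Dg.W.dc_le (k := 2) (by omega)
  have b3 := Dg.W.dc_le (k := 3) (by omega)
  have q2 : (pen (x 2)).card = 0 ∨ (pen (x 2)).card = 1 := by omega
  have q3 : (pen (x 3)).card = 0 ∨ (pen (x 3)).card = 1 := by omega
  have hsq := sq_add_self (NE j (cext (j + 1) (topOf : P → Tops P) t) x 0 + 1 - 1 -
    (pen (x 2)).card)
  rcases Dg.CH2_num with ⟨d, cc⟩ | ⟨d, cc⟩ | ⟨d, cc⟩ <;> rw [d] at e3 e4 <;>
    push_cast at e3 e4 hsq <;> rw [e4] <;>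
    rcases q2 with q2 | q2 <;> rw [q2] at e3 hsq <;>
    rcases q3 with q3 | q3 <;> rw [q3] at e3 <;> push_cast at e3 hsq <;> rw [e3] <;> linarith

end row

end Pool.Agent.GaussPoset.R3
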