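import Pool.Agent.W_448n6_h84.NbB
import Pool.Agent.W_448v8_h97.VaD

/-!
# MP_448cb3_co, case B, STEP 0 at the level 8: the naturals and the rows [DL] with at least four sites
whose doubled end is closed, functional `W_a = <-1, 7, 1, 2, 1, 1, 1, 7, 1>` (helper53, after helper84
and helper97)
-/

namespace Pool.Agent.GaussPoset.Win.W4

set_option linter.unusedSectionVars false

open Finset
open Pool.Agent.GaussPoset.Win.SO (PN vp con on mem_PN vp_PD vp_PU)

universe u

variable {P : Type u} [Fintype P] [PartialOrder P] [DecidableEq P] {r i : ℕ}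
variable {psi : P → P} {C K : Finset P} {w v : P} {m : ℕ} {x : ℕ → P}

/-- [DL], four sites, no pendant below the third site -/
theorem DLg.Ta_ge3w (h : DLg r i K psi C w v m x) (hm3 : m = 3) (hp : pen (x 2) = ∅) :
    -2 ≤ Lv i C + 7 * wv i C + wv i C ^ 2 := by
  have g2 := h.W.dc_le (k := 3) (by omega)
  rw [h.deg3' hm3] at g2
  have g3 := h.W.UE_one (i := i) (C := C) 2
  have g4 := card_le_card (T4_subset i C)
  have g5 := sq_add_nonneg (NE i C x 0 + (uc (x 0)).card - 1 - (pen (x 2)).card)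
  have e2 : NE i C x 2 = ((DE i C x 2).card : ℤ) - (UE i C x 2).card := rfl
  have hs := h.W.uc_le (k := 3) (by omega)
  have hU : (uc (x 3)).card = 2 → (UE i C x 2).card = 0 := by
    intro h2
    have := h.W.ue_last (i := i) (C := C) (by omega) (by rw [hm3]; exact h2)
    rw [hm3] at this
    rw [this, card_empty]
  rw [h.w3_eq, h.L_form3 hm3, e2]
  rw [hp, card_empty] at g5 ⊢
  have hz : (0 : ℤ) ≤ (Z4 i C).card - (T4 i C).card := by
    have : ((T4 i C).card : ℤ) ≤ (Z4 i C).card := by exact_mod_cast g4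
    linarith
  have hq : (pen (x 3)).card = 0 ∨ (pen (x 3)).card = 1 := by omega
  have hu' : (UE i C x 2).card = 0 ∨ (UE i C x 2).card = 1 := by omega
  rcases h.CH2_num with ⟨d, c⟩ | ⟨d, c⟩ | ⟨d, c⟩ <;> rw [d] <;>
    rcases hs with hs | hs <;> rcases hq with hq | hq <;> rcases hu' with hu | hu <;>
    first
    | (exfalso; have := hU hs; omega)
    | (rw [hs, hq, hu]; push_cast at g5 ⊢; linarith)

/-- the doubled end closed, at least five sites -/
theorem DLg.Ta_ge4 (h : DLg r i K psi C w v m x) (hm4 : 4 ≤ m) (hn : (uc (x 0)).card = 2) (hl : 0 ≤ NE i C x (m - 1)) :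
    0 ≤ Lv i C + 7 * wv i C + wv i C ^ 2 := by
  have hU := h.W.ue_zero (i := i) (C := C) (by omega) hn
  have hU2 := h.W.ue_inner (k := 2) (by omega) (by omega)
  have h3 := h.TUs_le hm4
  have h4 := OCs_nonneg (i := i) (C := C) (w := w) (v := v)
  have h5 : 0 ≤ NE i C x 0 := by
    unfold NE
    rw [hU, card_empty]
    push_cast
    omega
  have hpos : ∀ k, 3 ≤ k → k < m → 0 ≤ NE i C x k := by
    intro k hk hk'
    rcases Nat.lt_or_ge (k + 1) m with h6 | h6
    · exact h.NE_nonneg (by omega) (by omega)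
    · have : k = m - 1 := by omega
      rw [this]
      exact hl
  have p3 := hpos 3 le_rfl (by omega)
  have q1 := QS_bot (NE i C x) (s := 3) (t := m) (by omega)
  have q2 := QS_nonneg (NE i C x) (s := 3 + 1) (t := m) (by omega)
    fun k hk hk' => hpos k (by omega) (by omega)
  have q3 : (0 : ℤ) ≤ if 3 + 1 < m then 2 * NE i C x 3 * NE i C x (3 + 1) else 0 := by
    split_ifs with h6
    · have := hpos (3 + 1) (by omega) h6
      positivity
    · exact le_rfl
  have q4 := sq_sub_nonneg (NE i C x 3)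
  have e2 : NE i C x 2 = ((DE i C x 2).card : ℤ) := by
    unfold NE
    rw [hU2, card_empty]
    push_cast
    ring
  rw [h.w3_eq, h.L_form hm4, h.Zs_eq hm4, hn, e2, q1]
  push_cast
  have t1 : ((TUs i C x).card : ℤ) ≤ 1 := by exact_mod_cast h3
  have t2 : (0 : ℤ) ≤ ((TLs i C x).card : ℤ) := by positivity
  have t3 : (0 : ℤ) ≤ NE i C x 0 ^ 2 := sq_nonneg _
  rcases h.CH2_num with ⟨d, c⟩ | ⟨d, c⟩ | ⟨d, c⟩ <;> rw [d] <;> push_cast <;> linarith

end Pool.Agent.GaussPoset.Win.W4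

namespace Pool.Agent.GaussPoset.Wd

set_option linter.unusedSectionVars false

open Finset Win Win.I2 Win.Rc EK Win.Pn
open Pool.Agent.GaussPoset.Win.SO (F5 N1f N5f CQ envc)

universe u

variable {P : Type u} [Fintype P] [PartialOrder P] [DecidableEq P] {r j i : ℕ}
  {t : Tops P} {lo hi : ℕ → ℕ} {e : ℕ → ℕ → P} {m : ℕ} {x : ℕ → P} {c : ℕ → ℤ} {β : ℤ}

/-- THE CLOSED ROWS [DL] OF THE LEVEL 8, at least four sites: the value is nonnegative -/
theorem NJ.wa_closed (h : NJ P r 8) (B : RowB P 8 t m x c β) (C : Cp.Comp 8 (t : P) lo hi e)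
    (S : Shape 8 lo hi) (hm : 3 ≤ m) (hβ : β = 0) (c0 : c 0 = 1) (c1 : c 1 = -1)
    (hc : ∀ k, 2 ≤ k → k < m → c k = 0) (hu : (uc (x 0)).card = 2) :
    0 ≤ 2 * own ⟨-1, 7, 1, 2, 1, 1, 1, 7, 1⟩ 7 8 t +
      ∑ p ∈ (PD P 7).filter (fun p => (topOf p : Tops P) = t),
        shr ⟨-1, 7, 1, 2, 1, 1, 1, 7, 1⟩ 7 p := by
  classical
  have H := h.g.H
  obtain ⟨hin, hV, hcs⟩ := h.inner (i := 7) (j := 8) rfl (by omega) B
  have hV' := hV (by omega)
  have hcm := hcs m le_rfl
  have h4 : 4 ≤ (st 7 (SS 7 t)).card := by omega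
  have hcard := h.card_SS (i := 7) (by omega) C
  have hb : lo 7 + 3 ≤ hi 7 := by omega
  have hN := NJ.no_pend8 h C S hb
  obtain ⟨f1, f2, f3⟩ := NJ.no_pend h (i := 7) (j := 8) rfl hN
  have k2 : fa 7 (SS 7 t) = 0 := by
    unfold fa
    rw [f1, f2]
    simp
  have k3 : fm 7 (SS 7 t) x 0 = 0 := by
    unfold fm
    rw [f1, f2]
    simp
  have o1 := h.own1_closed (i := 7) (j := 8) rfl (by omega) B ⟨-1, 7, 1, 2, 1, 1, 1, 7, 1⟩
    (by omega) h4 c0 c1 hc hu (q := 0) (Nat.zero_le _) (by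
      intro z hz
      rw [f1, f2] at hz
      simp at hz)
  -- the closed pair
  have v := h.vals_closed (i := 7) (j := 8) rfl (by omega) B (by omega) h4 c0 c1 hc hu
  have hcq : ((CQ 7 (SS 7 t)).card : ℤ) = 1 := by
    have h1 := nj_be5_CQ h (i := 7) (j := 8) rfl (by omega) t
      (nj_F5_three h (i := 7) (j := 8) rfl (by omega) t (by omega))
    have h2 := v.al.2
    rw [h1] at h2
    linarith
  have hcqs : 4 ≤ cqs 7 (SS 7 t) := by
    have h1 : ∑ w ∈ CQ 7 (SS 7 t), (4 : ℤ) ≤ ∑ w ∈ CQ 7 (SS 7 t), envc 7 (SS 7 t) w :=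
      sum_le_sum fun w hw => by
        have := nj_env_ge h (i := 7) (j := 8) rfl (by omega) t h4 hw
        have h2 : (0 : ℤ) ≤ ((SO.chc 7 (SS 7 t) w).card : ℤ) := Int.natCast_nonneg _
        linarith
    rw [sum_const, nsmul_eq_mul, hcq] at h1
    unfold cqs
    linarith
  have n1_0 : 0 ≤ n1 7 (SS 7 t) := by
    unfold n1
    exact Int.natCast_nonneg _
  have et0 : (0 : ℤ) ≤ ((Rd.ETs 7 (SS 7 t)).card : ℤ) := Int.natCast_nonneg _
  have key : 2 ≤ own1 ⟨-1, 7, 1, 2, 1, 1, 1, 7, 1⟩ 7 t := by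
    rw [o1, k2, k3]
    simp only [ite_self]
    linarith
  -- the window 8
  obtain ⟨K, psi, R⟩ := exists_red P 8
  obtain ⟨w, v', D⟩ := NJ.dlg h (by omega) R B hm hβ c0 c1 hc
  have hs : Small 8 (topOf : P → Tops P) t := by
    rcases B.small h.g.H h.split with h2 | h2
    · exact h2
    · exfalso
      obtain ⟨h3, -, -, -, h4, -⟩ := h2
      rw [hc (m - 2) (by omega) (by omega)] at h4
      norm_num at h4
  have e6 := EK.NJ.F6_small h (by omega) R hs
  have hx2 := B.row.lev_x 2 (by omega)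
  have hx2t : x 2 ≤ (t : P) := by
    rw [← B.row.kap 2 (by omega)]
    exact le_topOf (x 2)
  have hp : Win.pen (x 2) = ∅ := by
    rw [eq_empty_iff_forall_notMem]
    intro z hz
    obtain ⟨z1, z2⟩ := Win.mem_pen.1 hz
    have lz := lev_cov H z1
    have hzD : z ∈ PD P 7 := mem_PD.2 ⟨by omega, z2, x 2, z1, hin 2 (by omega) (by omega)⟩
    exact (hN z ((h.mem (by omega) t (by omega)).2 (z1.le.trans hx2t))).1 hzD
  have hT : -2 ≤ W4.Lv 8 (cext (8 + 1) (topOf : P → Tops P) t) +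
      7 * W4.wv 8 (cext (8 + 1) (topOf : P → Tops P) t) +
      W4.wv 8 (cext (8 + 1) (topOf : P → Tops P) t) ^ 2 := by
    rcases Nat.lt_or_ge m 4 with h4' | h4'
    · exact D.Ta_ge3w (by omega) hp
    · -- a rectangle
      obtain ⟨hlen, -⟩ := B.orient h (by omega) C
      have hl7 := C.lo_step 7 (by omega)
      have hrect : RectShape 8 lo hi := by
        rcases S with h | ⟨h1, h2⟩ | ⟨h1, h2⟩ | ⟨h1, h2, h3⟩ | ⟨h1, h2⟩ | ⟨a, g0, g1, g2, g3, hN, g4⟩
        · have := h 7 (by omega)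
          omega
        · exact h2
        · exfalso
          have a1 := h2.hi 7 (by omega)
          have a2 := h2.hi 8 (by omega)
          norm_num at a1 a2
          simp only [Nat.reduceAdd] at hl7
          omega
        · omega
        · omega
        · exfalso
          have := late8_V7 (fun k hk => C.lo_step k hk) (fun k hk => C.hi_step k hk) g0 g1 g2 g3 g4
          omega
      have hUE := EK.rect_UE (n := 6) h B (by omega) C hrect (k := m - 1) (by omega)
      have hNE : 0 ≤ W4.NE 8 (cext (8 + 1) (topOf : P → Tops P) t) x (m - 1) := by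
        unfold W4.NE
        rw [hUE, card_empty]
        push_cast
        omega
      have := D.Ta_ge4 h4' hu hNE
      linarith
  rw [f3, Finset.sum_empty, own_eq]
  have e2 : own2 ⟨-1, 7, 1, 2, 1, 1, 1, 7, 1⟩ 8 t =
      W4.Lv 8 (cext (8 + 1) (topOf : P → Tops P) t) +
      7 * W4.wv 8 (cext (8 + 1) (topOf : P → Tops P) t) +
      W4.wv 8 (cext (8 + 1) (topOf : P → Tops P) t) ^ 2 := by
    unfold own2
    rw [e6, ← EK.F24_eq, EK.F3_eq]
    ring
  rw [e2]
  linarith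


/-- the weights `W_a` against the weights `V8` -/
theorem own_wa (t : Tops P) : own ⟨-1, 7, 1, 2, 1, 1, 1, 7, 1⟩ i j t =
    own ⟨-1, 7, 1, 2, 1, 1, 1, 6, 2⟩ i j t + (F3 j t - F6 j t) := by
  unfold own
  simp only
  ring

/-- NATURAL PARTS OF THE LEVEL 8, weights `W_a` -/
theorem NJ.wa_nat (h : NJ P r 8) {lo hi : Tops P → ℕ → ℕ}
    {e : Tops P → ℕ → ℕ → P} (C : ∀ t : Tops P, Cp.Comp 8 (t : P) (lo t) (hi t) (e t))
    (hS : ∀ t : Tops P, Shape 8 (lo t) (hi t)) (B : RowB P 8 t m x c β)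
    (hβ : β = 0) (hc : ∀ k, k < m → c k = 0) :
    0 ≤ 2 * own ⟨-1, 7, 1, 2, 1, 1, 1, 7, 1⟩ 7 8 t +
      ∑ p ∈ (PD P 7).filter (fun p => (topOf p : Tops P) = t),
        shr ⟨-1, 7, 1, 2, 1, 1, 1, 7, 1⟩ 7 p := by
  classical
  have h1 := EK.NJ.nat_all8 h C hS B hβ hc
  have hn : NatT 8 (t : P) := RowB.nat_of h B hc hβ
  have e3 := EK.NJ.nat_F3 h (by omega) hn
  obtain ⟨K, psi, R⟩ := exists_red P 8
  have hs : Small 8 (topOf : P → Tops P) t := by
    rcases B.small h.g.H h.split with h2 | h2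
    · exact h2
    · exfalso
      obtain ⟨h3, -, h4, -⟩ := h2
      rw [hc 0 (by omega)] at h4
      norm_num at h4
  have e6 := EK.NJ.F6_small h (by omega) R hs
  have e6' : F6 8 t = 0 := by
    rw [e6, ← EK.F3_eq, e3]
    norm_num
  rw [own_wa, e3, e6']
  have e7 : ∀ p : P, shr ⟨-1, 7, 1, 2, 1, 1, 1, 7, 1⟩ 7 p = shr ⟨-1, 7, 1, 2, 1, 1, 1, 6, 2⟩ 7 p :=
    fun p => rfl
  simp only [e7]
  linarith

end Pool.Agent.GaussPoset.Wd
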