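import Pool.Agent.W_448op_h53.OeD
import Pool.Agent.W_448op_h53.OeC
import Pool.Agent.W_448op_h53.OeB
import Pool.Agent.W_448st0_h96.SzF

/-!
MP_448cb3_co, G2, step 0 at the level 8, the weights `W_a`: the leaves `HNatA`, `HClosedA`, `HFoldA`,
`HOpen3A`.  helper53.
-/

namespace Pool.Agent.GaussPoset.EK

set_option linter.unusedSectionVars false

open Finset Win St Polynomial Wd Win.W4

universe u

variable (P : Type u) [Fintype P] [PartialOrder P] [DecidableEq P]

/-- naturals, weights `W_a` -/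
theorem hnatA : HNatA P := by
  intro r i t m x c β h8 h B hβ hc
  obtain rfl : i = 7 := by omega
  obtain ⟨lo, hi, e, C, hS⟩ := hsh (P := P) r (7 + 1) h.nj.g
  exact Wd.NJ.wa_nat h.nj C hS B hβ hc

/-- closed [DL], weights `W_a` -/
theorem hclosedA : HClosedA P := by
  intro r i K psi t m x c β lo hi e h8 h R B C S hm hI hu
  obtain rfl : i = 7 := by omega
  left
  exact Wd.NJ.wa_closed h.nj B C S hm hI.1 hI.2.1 hI.2.2.1 hI.2.2.2 hu

/-- [DL] at a fold end, weights `W_a` -/
theorem hfoldA : HFoldA P := by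
  intro r i t m x c lo hi e h8 F
  left
  have h1 := F.own_ge Wea rfl (by norm_num [Wea]) (by norm_num [Wea])
  unfold Ua
  rw [F.shr_zero]
  unfold Wea at h1 ⊢
  simp only at h1
  rcases h1 with ⟨-, h1 | h1 | h1⟩ | ⟨-, -, h1 | h1 | h1⟩ <;> linarith

/-- [DL] with four sites, both ends single, weights `W_a` -/
theorem hopen3A : HOpen3A P := by
  intro r i K psi t x c β lo hi e a h8 hC R B C S L hI u0 u3 hU hor
  have hn := hC.nj
  have hi1 : 1 ≤ i := by omega
  obtain ⟨hlen, -⟩ := B.orient hn (by omega) C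
  have hD := open_word hn hi1 C hlen hor L u3
  left
  exact R3.open3_wa hn rfl hi1 B hI.1 hI.2.1 hI.2.2.1 (hI.2.2.2 2 le_rfl (by omega)) C u0 u3 hU hD
    (a5 := 7) le_rfl

end Pool.Agent.GaussPoset.EK
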