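import Pool.Agent.W_448win_h80.R3E
import Pool.Agent.W_448kr_h10.KrA
import Pool.Agent.W_448st0_h96.SzF

/-!
# MP_448cb3_co, case B, STEP 0 at the level 8: the rotated rows with four sites, functional
`W_a = <-1, 7, 1, 2, 1, 1, 1, 7, 1>` (helper53, after helper80)
-/

namespace Pool.Agent.GaussPoset.Win.W4

set_option linter.unusedSectionVars false

open Finset
open Pool.Agent.GaussPoset.Win.SO (PN vp con on mem_PN vp_PD vp_PU)

universe u

variable {P : Type u} [Fintype P] [PartialOrder P] [DecidableEq P] {r i : ℕ}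
variable {psi : P → P} {C K : Finset P} {w v : P} {x : ℕ → P}

/-- the arithmetic -/
lemma R3a_ar (n0 n1 n2 n2' n3 p1 : ℕ) (c1 c2 z s : ℤ) (h0 : n0 + n2' ≤ 1) (h1 : n1 ≤ 2)
    (h2 : n2 ≤ 2) (hp : p1 ≤ 1) (hq : n2' = 1 → p1 = 0)
    (hc1 : c1 ≤ 2 * s + n1 * (n1 - 1)) (hs : s ≤ if n1 = 0 then 0 else if n1 = 1 then 2 else 3)
    (hc2 : (n2 : ℤ) * (n2 - 1) ≤ c2) (hz : 0 ≤ z) :
    4 ≤ ((-(n0 : ℤ) + n1 + (n2 - n2') + n3) + (-(n0 : ℤ) + n1 + (n2 - n2') + n3) ^ 2 -
      2 * (-(n0 : ℤ)) * (n2 - n2') - 2 * n1 * n3 -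
      2 * p1 * (-(n0 : ℤ) + n1 + (n2 - n2') + n3) + ((p1 : ℤ) ^ 2 - p1) + 2 + 2 * 1 +
      2 * z - c1 + c2 - 2 * (-(n0 : ℤ) + (n2 - n2') - n1 - n3) -
      (n1 - (n2 - n2') - 1) * (4 + 2 * 1 + 2 * p1)) +
      7 * ((n1 : ℤ) - (n2 - n2') - 1) + ((n1 : ℤ) - (n2 - n2') - 1) ^ 2 + 2 * n1 := by
  have q3 : n3 = 0 ∨ n3 = 1 ∨ 2 ≤ n3 := by omega
  have f3 : (4 : ℤ) * n3 - 4 ≤ (n3 : ℤ) ^ 2 := by nlinarith [sq_nonneg ((n3 : ℤ) - 2)]
  have q0 : (n0 = 0 ∧ n2' = 0) ∨ (n0 = 1 ∧ n2' = 0) ∨ (n0 = 0 ∧ n2' = 1 ∧ p1 = 0) := by omega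
  have q1 : n1 = 0 ∨ n1 = 1 ∨ n1 = 2 := by omega
  have q2 : n2 = 0 ∨ n2 = 1 ∨ n2 = 2 := by omega
  have qp : p1 = 0 ∨ p1 = 1 := by omega
  rcases q0 with ⟨rfl, rfl⟩ | ⟨rfl, rfl⟩ | ⟨rfl, rfl, rfl⟩
  · rcases q1 with rfl | rfl | rfl <;> rcases q2 with rfl | rfl | rfl <;>
      rcases qp with rfl | rfl <;> norm_num at hc1 hs hc2 ⊢ <;>
      rcases q3 with rfl | rfl | q3 <;> (norm_num; linarith)
  · rcases q1 with rfl | rfl | rfl <;> rcases q2 with rfl | rfl | rfl <;>
      rcases qp with rfl | rfl <;> norm_num at hc1 hs hc2 ⊢ <;>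
      rcases q3 with rfl | rfl | q3 <;> (norm_num; linarith)
  · rcases q1 with rfl | rfl | rfl <;> rcases q2 with rfl | rfl | rfl <;>
      norm_num at hc1 hs hc2 ⊢ <;>
      rcases q3 with rfl | rfl | q3 <;> (norm_num; linarith)

/-- THE OWN PART AT THE WINDOW `j` of a rotated row with four sites -/
theorem Rg.owna_ge (h : Rg r i K psi C w v x) (hp0 : pen (x 0) ≠ ∅)
    (hp1 : UE i C x 2 ≠ ∅ → pen (x 1) = ∅) (hU : ∀ z ∈ UE i C x 2, ch i C z ≤ 0) :
    4 ≤ Lv i C + 7 * wv i C + wv i C ^ 2 + 2 * ((DE i C x 1).card : ℤ) := by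
  classical
  have W := h.W
  have c1 : CH i C x 1 ≤ 2 * ∑ a ∈ DE i C x 1, ((pen a).card : ℤ) +
      (DE i C x 1).card * ((DE i C x 1).card - 1) := by
    rw [W.CH_split, W.sum_DE (by omega) h.dcv12, h.UE1, Finset.sum_empty, add_zero, mul_sum]
  obtain ⟨b1, b2⟩ := W.sum_pen_le (k := 1) (by omega) h.dcv12
  obtain ⟨b3, -⟩ := W.sum_pen_le (k := 2) (by omega) h.dcv23
  have c2 : ((DE i C x 2).card : ℤ) * ((DE i C x 2).card - 1) ≤ CH i C x 2 := by
    rw [W.CH_split, W.sum_DE (by omega) h.dcv23]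
    have g1 : 0 ≤ ∑ a ∈ DE i C x 2, (2 * ((pen a).card : ℤ)) :=
      sum_nonneg fun a _ => by positivity
    have g2 : 0 ≤ ∑ z ∈ UE i C x 2, vp i z * ch i C z := by
      refine sum_nonneg fun z hz => ?_
      rw [vp_PU (mem_UE.1 hz).2.1]
      have := hU z hz
      linarith
    linarith
  have u02 := W.ue_sum (i := i) (C := C) 0 2 (by omega) (by omega) (by omega)
  have h9 := card_le_card (T4_subset i C)
  have hp0' := W.dc_le (k := 0) (by omega)
  have hd0 := h.deg0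
  have hd1 := h.deg1
  have hp1' := W.dc_le (k := 1) (by omega)
  have p0 : (pen (x 0)).card = 1 := by
    have := card_pos.2 (nonempty_iff_ne_empty.2 hp0)
    omega
  have e2 : NE i C x 2 = ((DE i C x 2).card : ℤ) - (UE i C x 2).card := rfl
  have hz : (0 : ℤ) ≤ (Z4 i C).card - (T4 i C).card := by
    have : ((T4 i C).card : ℤ) ≤ (Z4 i C).card := by exact_mod_cast h9
    linarith
  have key := R3a_ar (UE i C x 0).card (DE i C x 1).card (DE i C x 2).card (UE i C x 2).card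
    (DE i C x 3).card (pen (x 1)).card (CH i C x 1) (CH i C x 2)
    ((Z4 i C).card - (T4 i C).card) (∑ a ∈ DE i C x 1, ((pen a).card : ℤ)) u02 b1 b3 (by omega)
    (fun h1 => by
      rw [hp1 (fun h2 => by rw [h2, card_empty] at h1; omega), card_empty]) c1 b2 c2 hz
  rw [h.w3_eq, h.L_form, h.NE0, h.NE1, e2, h.NE3, p0]
  push_cast
  linarith

end Pool.Agent.GaussPoset.Win.W4

namespace Pool.Agent.GaussPoset.R3

set_option linter.unusedSectionVars false

open Finset Win St Wd Win.W4 EK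
open Pool.Agent.GaussPoset.Win.Pn
open Pool.Agent.GaussPoset.Win.Pf
open Pool.Agent.GaussPoset.Win.SO (N1f mem_N1f N5f F5 mem_F5)
open Pool.Agent.GaussPoset.Win.Rd (sts_bi)

universe u

variable {P : Type u} [Fintype P] [PartialOrder P] [DecidableEq P] {r j i : ℕ}
  {t : Tops P} {lo hi : ℕ → ℕ} {e : ℕ → ℕ → P} {x : ℕ → P} {c : ℕ → ℤ} {β : ℤ}

section row

variable (h : NJ P r j) (hij : i + 1 = j) (hi1 : 1 ≤ i) (B : RowB P j t 3 x c β)
include h hij hi1 B

/-- the own part of the window `j - 1` without a flip -/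
lemma own1_openA (c1 : c 1 = 0) (u0 : (uc (x 0)).card = 1) (u3 : (uc (x 3)).card = 1)
    (hF : F5 i (SS i t) = ∅) : 2 * ((N1f i (SS i t)).card : ℤ) ≤ own1 Wea i t := by
  have h3 := three h hij hi1 B u0 u3
  have hT := tws_R h hij hi1 B c1 u0 u3
  obtain ⟨-, v5, v6, v8, v10⟩ := W1.vals_open h hij hi1 t hT hF
  rw [nj_QQ_three h hij hi1 t (by omega) hF, nj_N5_three h hij hi1 t (by omega), card_empty] at v6
  rw [nj_N5_three h hij hi1 t (by omega), card_empty] at v10
  have e3 : A3 i t = I2.al 3 (st i (SS i t)).card (ZS i (SS i t)) := rfl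
  have e5 : B5 i t = 0 := v5
  have e6 : C6 i t = _ := v6
  have e8 : C8 i t = 0 := v8
  have e10 : C10 i t = _ := v10
  unfold own1
  rw [e5, e6, e8, e10, e3]
  simp only [Wea]
  push_cast
  set a := I2.al 3 (st i (SS i t)).card (ZS i (SS i t))
  have h1 : 0 ≤ a * (a - 1) := by
    rcases le_or_gt a 0 with h2 | h2
    · exact mul_nonneg_of_nonpos_of_nonpos h2 (by linarith)
    · exact mul_nonneg (by linarith) (by linarith)
  nlinarith

/-- the share of the pendant if there is no flip -/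
lemma shr_openA (C : Cp.Comp (i + 1) (t : P) lo hi e) (D : Oc i lo hi) (c1 : c 1 = 0)
    (u0 : (uc (x 0)).card = 1) (u3 : (uc (x 3)).card = 1) (hF : F5 i (SS i t) = ∅)
    {p : P} (hp : p ∈ PD P i) (ht : (topOf p : Tops P) = t) (hu : uc p = {x 1}) :
    -8 ≤ shr Wea i p := by
  classical
  have H := h.g.H
  have d5 := D.i5
  have hb := bal_R h hij hi1 B c1 u0 u3 (fun T => ¬ Disjoint T (sit i p))
  have hT := tws_R h hij hi1 B c1 u0 u3
  have hk := kc_FL h hij hi1 B hp ht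
  have n1 := nLp_le h hij hi1 B hp hu ht
  have n2 := nUp_le h hij hi1 B C D hp hu
  have hS := sum_kc_le H i p
  have hzk := nj_zc_kc h hij hi1 (p := p) (mem_PD.1 hp).1
  have g : GoodTo P r (i + 1) := by rw [hij]; exact h.g
  have hU : (FU' i (SS i t)).card = 0 := by
    rw [C.toWin.card_FU g t.2 (i := i) (by omega) (S := SS i t)
      (fun y hy => h.mem (by omega) t (by omega))]
    unfold Win.fuw
    rw [D.l3, D.l4, D.h3, D.h4, if_neg (by omega), if_neg (by omega)]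
  subst ht
  have e5 := nj_net5 h hij hi1 hp hF
  have e7 := nj_net7 h hij hi1 hp
  rw [hT, hF, filter_empty, card_empty] at e7
  have e5' : Pn.rho i (topOf : P → Tops P) 5 p - A3 i (topOf p) =
      - ((FL i (SS i (topOf p))).card : ℤ) := by
    unfold A3
    rw [e5, hU]
    have := hb
    push_cast
    linarith
  have e7' : Pn.rho i (topOf : P → Tops P) 7 p - B5 i (topOf p) = 0 := by
    unfold B5
    rw [e7]
    norm_num
  have hnn : nn i p ≤ 5 := by
    unfold nn
    have n1' : ((nLp i p).card : ℤ) ≤ 3 := by exact_mod_cast n1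
    have n2' : ((nUp i p).card : ℤ) ≤ 2 := by exact_mod_cast n2
    linarith
  have hz : 0 ≤ zc i (topOf : P → Tops P) p := by unfold zc; positivity
  have hkc0 : 0 ≤ kc p := by unfold kc; positivity
  unfold shr
  rw [e5', e7']
  simp only [Wea]
  set Z := zc i (topOf : P → Tops P) p
  set F := ((FL i (SS i (topOf p))).card : ℤ)
  have k1 : Z * (kc p + nn i p) ≤ Z * (F + 5) := mul_le_mul_of_nonneg_left (by linarith) hz
  have k3 : Z ≤ 2 := by linarith
  nlinarith

/-- the part and the pendant at the window `j - 1` with a flip -/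
lemma flip_valA (C : Cp.Comp (i + 1) (t : P) lo hi e) (D : Oc i lo hi) (c1 : c 1 = 0)
    (u0 : (uc (x 0)).card = 1) (u3 : (uc (x 3)).card = 1) {p y q u a s b : P}
    (ht : (topOf p : Tops P) = t) (F : Flp i (SS i t) p y q u a s b) :
    4 * ((N1f i (SS i t)).card : ℤ) - 4 ≤ 2 * own1 Wea i t + shr Wea i p := by
  classical
  have H := h.g.H
  have d5 := D.i5
  have hb := bal_R h hij hi1 B c1 u0 u3 (fun _ => True)
  simp only [filter_true] at hb
  obtain ⟨-, -, hZU, hrow⟩ := nj_flip_row h hij hi1 t C F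
  rw [D.l0, D.l1, D.l2, D.l3, D.l4, D.h0, D.h1, D.h2, D.h3, D.h4] at hrow
  rcases hrow with ⟨-, hh, -⟩ | ⟨-, -, r1, r2, r3⟩
  · omega
  rw [if_pos (by norm_num)] at r1
  rw [if_pos rfl, if_neg (by norm_num)] at r2
  rw [if_neg (by omega)] at r3
  have hA := nj_flip_al3 h hij hi1 t F
  rw [r1, r2, r3] at hA
  have hA' : A3 i t = ((FL i (SS i t)).card : ℤ) := by
    unfold A3
    rw [hA]
    push_cast
    linarith
  have hown := nj_flip_own h hij hi1 Wea t F
  rw [own_eq, hA', r1, r2, r3] at hown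
  have hS := sum_kc_le H i p
  have hz : 0 ≤ zc i (topOf : P → Tops P) p := by unfold zc; positivity
  have hzk := nj_zc_kc h hij hi1 (p := p) F.lp
  have hkc := nj_kc h hij hi1 t F.mp F.lp
  obtain ⟨psi, hM⟩ := good_mat h.g.H (h.g.good i (by omega))
  have Q := nj_pso h hij hi1 hM t
  rw [← FL_eq Q F] at hkc
  have hN : (0 : ℤ) ≤ ((N1f i (SS i t)).card : ℤ) := by positivity
  subst ht
  have hshr := nj_flip_shr h hij hi1 Wea F
  rw [hA', r2] at hshr
  rw [hshr]
  have ho : own1 Wea i (topOf p) = ((FL i (SS i (topOf p))).card : ℤ) ^ 2 -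
      (FL i (SS i (topOf p))).card + 2 + 2 * (N1f i (SS i (topOf p))).card := by
    unfold own2 at hown
    simp only [Wea] at hown ⊢
    push_cast at hown
    linarith
  rw [ho]
  simp only [Wea]
  rw [hkc] at hzk
  set Z := zc i (topOf : P → Tops P) p
  obtain ⟨k, hk⟩ : ∃ k, k = (FL i (SS i (topOf p))).card := ⟨_, rfl⟩
  rw [← hk] at hzk ⊢
  have hZ2 : Z ≤ 2 - k := by linarith
  push_cast
  have hk3 : k = 0 ∨ k = 1 ∨ k = 2 := by
    have : (k : ℤ) ≤ 2 := by linarith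
    have : k ≤ 2 := by exact_mod_cast this
    omega
  rcases hk3 with rfl | rfl | rfl
  · push_cast at hZ2 ⊢
    have hZ : Z = 0 ∨ Z = 1 ∨ Z = 2 := by omega
    rcases hZ with hZ | hZ | hZ <;> rw [hZ] at hS ⊢ <;> linarith
  · push_cast at hZ2 ⊢
    have hZ : Z = 0 ∨ Z = 1 := by omega
    rcases hZ with hZ | hZ <;> rw [hZ] at hS ⊢ <;> linarith
  · push_cast at hZ2 ⊢
    have hZ : Z = 0 := by omega
    rw [hZ] at hS ⊢
    linarith

end row

/-- the window `j` -/
theorem owna_pos (h : NJ P r j) (hj : 2 ≤ j) (B : RowB P j t 3 x c β) (hβ : β = 1)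
    (c0 : c 0 = -1) (c1 : c 1 = 0) (c2 : c 2 = 0) (C : Cp.Comp j (t : P) lo hi e)
    (S : Shape j lo hi) (hp0 : pen (x 0) ≠ ∅) :
    4 ≤ own2 Wea j t + 2 * ((DE j (cext (j + 1) (topOf : P → Tops P) t) x 1).card : ℤ) := by
  classical
  have hb : β ≠ 0 := by rw [hβ]; norm_num
  obtain ⟨K, psi, R⟩ := exists_red P j
  obtain ⟨x', hx'⟩ : ∃ x' : ℕ → P, x' = fun k => if k = 4 then x 0 else x k := ⟨_, rfl⟩
  have hxk : ∀ k, k ≤ 3 → x' k = x k := by
    intro k hk
    rw [hx']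
    show (if k = 4 then x 0 else x k) = x k
    rw [if_neg (by omega)]
  have hx4 : x' 4 = x' 0 := by
    rw [hxk 0 (by omega), hx']
    show (if 4 = 4 then x 0 else x 4) = x 0
    rw [if_pos rfl]
  have B' := B.congr hxk
  obtain ⟨w, v, D⟩ := NJ.rg h hj R B' hβ c0 c1 c2 hx4
  have hed : ∀ k, k ≤ 2 → ed x' k = ed x k := by
    intro k hk
    unfold ed
    rw [hxk k (by omega), hxk (k + 1) (by omega)]
  have hUE : UE j (cext (j + 1) (topOf : P → Tops P) t) x' 2 =
      UE j (cext (j + 1) (topOf : P → Tops P) t) x 2 := by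
    unfold UE
    rw [hed 2 le_rfl]
  have hDE : DE j (cext (j + 1) (topOf : P → Tops P) t) x' 1 =
      DE j (cext (j + 1) (topOf : P → Tops P) t) x 1 := by
    unfold DE
    rw [hed 1 (by omega)]
  have key := D.owna_ge (by rw [hxk 0 (by omega)]; exact hp0)
    (by
      rw [hUE, hxk 1 (by omega)]
      exact fun hU => NJ.pen_one_zero h hj B hb C S hU)
    (by
      intro z hz
      obtain ⟨hzC, hzP, -⟩ := mem_UE.1 hz
      have h1 := D.W.ch_PU hzP hzC
      rw [hUE] at hz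
      rw [NJ.upen_zero h hj B C S hz, card_empty] at h1
      push_cast at h1
      linarith)
  rw [hDE] at key
  have hsm : Small j (topOf : P → Tops P) t := by
    refine (B.small h.g.H h.split).resolve_right fun hp => ?_
    have := hp.1
    omega
  have e6 := NJ.F6_small h hj R hsm
  have e2 : own2 Wea j t = Lv j (cext (j + 1) (topOf : P → Tops P) t) +
      7 * wv j (cext (j + 1) (topOf : P → Tops P) t) +
      wv j (cext (j + 1) (topOf : P → Tops P) t) ^ 2 := by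
    unfold own2
    simp only [Wea]
    rw [e6, ← EK.F24_eq, EK.F3_eq]
    ring
  rw [e2]
  exact key

/-- THE VALUE OF A ROTATED ROW WITH FOUR SITES -/
theorem va_nonneg (h : NJ P r j) (hij : i + 1 = j) (hi1 : 1 ≤ i) (B : RowB P j t 3 x c β)
    (hβ : β = 1) (c0 : c 0 = -1) (c1 : c 1 = 0) (c2 : c 2 = 0)
    (C : Cp.Comp j (t : P) lo hi e) (S : Shape j lo hi) (u0 : (uc (x 0)).card = 1)
    (u3 : (uc (x 3)).card = 1) (hp0 : pen (x 0) ≠ ∅) (hp2 : pen (x 2) = ∅)
    (hD : pen (x 1) = ∅ ∨ Oc i lo hi) :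
    0 ≤ 2 * own Wea i j t + ∑ p ∈ (PD P i).filter (fun p => (topOf p : Tops P) = t),
      shr Wea i p := by
  classical
  have h2 := owna_pos h (by omega) B hβ c0 c1 c2 C S hp0
  have hDE := DE_le h hij hi1 B (t := t)
  have hDE' : ((DE j (cext (j + 1) (topOf : P → Tops P) t) x 1).card : ℤ) ≤
      ((N1f i (SS i t)).card : ℤ) := by exact_mod_cast hDE
  rw [own_eq]
  suffices hs : 4 * ((N1f i (SS i t)).card : ℤ) - 8 ≤ 2 * own1 Wea i t +
      ∑ p ∈ (PD P i).filter (fun p => (topOf p : Tops P) = t), shr Wea i p by linarith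
  have hin : ∀ p ∈ (PD P i).filter (fun p => (topOf p : Tops P) = t),
      p ∈ (SS i t).filter (· ∈ PD P i) := by
    intro p hp
    obtain ⟨hp1, hp3⟩ := mem_filter.1 hp
    have hlp := (mem_PD.1 hp1).1
    exact mem_filter.2 ⟨(h.mem (by omega) t (by omega)).2 (by rw [← hp3]; exact le_topOf p), hp1⟩
  have hnoF : (PD P i).filter (fun p => (topOf p : Tops P) = t) = ∅ → F5 i (SS i t) = ∅ := by
    intro he
    rw [eq_empty_iff_forall_notMem]
    intro q hq
    obtain ⟨q1, q2, -⟩ := mem_F5.1 hq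
    have hlq := (mem_PD.1 q2).1
    have hqt : q.1 ≤ (t : P) := (h.mem (by omega) t (by omega)).1 q1
    have : q.1 ∈ (PD P i).filter (fun p => (topOf p : Tops P) = t) := by
      refine mem_filter.2 ⟨q2, Subtype.ext ?_⟩
      exact Hul.top_unique (h.nj (z := q.1) (by omega)) (topOf q.1).2 t.2 (le_topOf q.1) hqt
    rw [he] at this
    exact absurd this (notMem_empty _)
  rcases eq_empty_or_nonempty ((PD P i).filter (fun p => (topOf p : Tops P) = t)) with he | hne
  · rw [he, Finset.sum_empty]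
    have := own1_openA h hij hi1 B c1 u0 u3 (hnoF he)
    linarith
  · obtain ⟨p, hp⟩ := hne
    have hOc : Oc i lo hi := by
      rcases hD with hD | hD
      · exfalso
        rw [no_pd h hij hi1 B u0 u3 hD hp2] at hp
        exact absurd hp (notMem_empty _)
      · exact hD
    have hone : (PD P i).filter (fun p => (topOf p : Tops P) = t) = {p} := by
      obtain ⟨n1, -, -⟩ := nj_one h hij hi1 t
      rw [card_le_one] at n1
      refine eq_singleton_iff_unique_mem.2 ⟨hp, fun q hq => ?_⟩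
      exact n1 q (hin q hq) p (hin p hp)
    rw [hone, sum_singleton]
    obtain ⟨hp1, hpt⟩ := mem_filter.1 hp
    have hup := pd_x1 h hij hi1 B u0 u3 hp2 hp1 hpt
    subst hij
    by_cases hF : F5 i (SS i t) = ∅
    · have g1 := own1_openA h rfl hi1 B c1 u0 u3 hF
      have g2 := shr_openA h rfl hi1 B C hOc c1 u0 u3 hF hp1 hpt hup
      linarith
    · obtain ⟨⟨p', q⟩, hpq⟩ := nonempty_iff_ne_empty.2 hF
      obtain ⟨y, u, a, s, b, F⟩ := nj_flp h rfl hi1 t hpq
      have hp' : p' = p := by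
        obtain ⟨n1, -, -⟩ := nj_one h rfl hi1 t
        rw [card_le_one] at n1
        exact n1 p' (mem_filter.2 ⟨F.mp, F.pD⟩) p (hin p hp)
      subst hp'
      have := flip_valA h rfl hi1 B C hOc c1 u0 u3 hpt F
      linarith

end Pool.Agent.GaussPoset.R3

namespace Pool.Agent.GaussPoset.EK

set_option linter.unusedSectionVars false

open Finset Win St Polynomial Wd Win.W4

universe u

/-- THE LEAF `HRing3A` -/
theorem hring3A (P : Type u) [Fintype P] [PartialOrder P] [DecidableEq P] : HRing3A P := by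
  intro r i K psi t x c β lo hi e a h8 hC hR B C S L hβ c0 c1 u0 u3 hp0 hor
  have hi1 : 1 ≤ i := by omega
  obtain ⟨hlen, -⟩ := B.orient hC.nj (by omega) C
  have hp2 : pen (x 2) = ∅ := B.pen_mid hC.nj (k := 2) (by omega) (by omega)
    (c1 1 le_rfl (by omega)) (c1 2 (by omega) (by omega))
  exact Or.inl (R3.va_nonneg hC.nj rfl hi1 B hβ c0 (c1 1 le_rfl (by omega))
    (c1 2 (by omega) (by omega)) C S u0 u3 hp0 hp2 (r3_word hC.nj rfl hi1 C hlen hor L u0))

end Pool.Agent.GaussPoset.EK
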